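import Mathlib

set_option autoImplicit false

namespace Pool.Agent.Results.MP_70678e_nt.Rho86

lemma step (n : ℕ) : (Nat.digits 10 n).sum = n % 10 + (Nat.digits 10 (n / 10)).sum := by
  rcases Nat.eq_zero_or_pos n with h | h
  · subst h; simp
  · rw [Nat.digits_def' (by norm_num) h]; simp

lemma prime_big : Nat.Prime 6999999989 := by
  rw [Nat.prime_def_le_sqrt]
  refine ⟨by norm_num, fun m h2 hm hd => ?_⟩
  have hs : Nat.sqrt 6999999989 ≤ 83666 := by
    rw [← Nat.lt_succ_iff, Nat.sqrt_lt]; norm_num
  have key : (List.range 83667).all (fun m => m < 2 || 6999999989 % m != 0) = true := by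
    decide +kernel
  rw [List.all_eq_true] at key
  have := key m (List.mem_range.2 (by omega))
  have h0 := Nat.mod_eq_zero_of_dvd hd
  simp [h0] at this
  omega

/-- The least prime with decimal digit sum 86 is 6999999989, which ends in 89. -/
theorem result :
    IsLeast {p : ℕ | p.Prime ∧ (Nat.digits 10 p).sum = 86} 6999999989 := by
  refine ⟨⟨prime_big, by simp⟩, ?_⟩
  rintro n ⟨hp, hs⟩
  by_contra hlt
  push Not at hlt
  rw [step, step, step, step, step, step, step, step, step, step] at hs
  have h0 : n / 10 / 10 / 10 / 10 / 10 / 10 / 10 / 10 / 10 / 10 = 0 := by omega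
  rw [h0] at hs
  simp only [Nat.digits_zero, List.sum_nil] at hs
  have : n = 5999999999 ∨ n = 6899999999 ∨ n = 6989999999 ∨ n = 6998999999 ∨ n = 6999899999 ∨
      n = 6999989999 ∨ n = 6999998999 ∨ n = 6999999899 := by omega
  rcases this with h | h | h | h | h | h | h | h <;> subst h <;> revert hp <;> norm_num

end Pool.Agent.Results.MP_70678e_nt.Rho86
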